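import Pool.Agent.Q226.FL2.OneDefs

/-!
# SetIntersection for data structures on literals: definitions

A family of `m` subsets of a universe with `n` elements is given by bits: the position
`((i, e), k)` (set `i`, element `e`, tag `k < K`) contains `1` if `e` is in the set `i` and this was
written down with the tag `k`.
-/

set_option autoImplicit false

open Finset

namespace Pool.Agent.Q226.DSI

open Pool.Agent.Q226.FLT Pool.Agent.Q226.FL2

/-- the positions: a set, an element and a tag -/
abbrev Position (m n K : ℕ) : Type := (Fin m × Fin n) × Fin K

/-- each pair of a set and an element has at most one tag -/
def OneTag {m n K : ℕ} (x : Position m n K → Bool) : Prop :=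
  ∀ e k k', x (e, k) = true → x (e, k') = true → k = k'

open Classical in
/-- the family: `e` is in the set `i` if this was written down with some tag -/
noncomputable def family {m n K : ℕ} (x : Position m n K → Bool) : Fin m → Finset (Fin n) :=
  fun i => univ.filter fun e => ∃ k, x ((i, e), k) = true

/-- A data structure with `s` cells on the literals. `cell c y` is the real number in cell `c` after
the preprocessing if the literals (bits and negated bits) have the values `y`, an arbitrary
nondecreasing function of `y`. If the contents of the memory are `M`, then the query `(i, j)` reads
the cells `reads i j M` and reports the set `answer i j M`; the cells to be read may depend on what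
was read before (the only condition is `answer_reads`: the answer is determined by the contents of
the cells read), and the answer is a nondecreasing function of the memory. -/
structure LiteralDS (m n K s : ℕ) where
  /-- the contents of the cells -/
  cell : Fin s → (Position m n K × Bool → Bool) → ℝ
  cell_mono : ∀ c, Monotone (cell c)
  /-- the cells read -/
  reads : Fin m → Fin m → (Fin s → ℝ) → Finset (Fin s)
  /-- the set reported -/
  answer : Fin m → Fin m → (Fin s → ℝ) → Finset (Fin n)
  answer_mono : ∀ i j, Monotone (answer i j)
  answer_reads : ∀ i j M M', (∀ c ∈ reads i j M, M' c = M c) → answer i j M' = answer i j M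

variable {m n K s : ℕ}

/-- The contents of the memory. -/
def LiteralDS.mem (P : LiteralDS m n K s) (y : Position m n K × Bool → Bool) : Fin s → ℝ :=
  fun c => P.cell c y

/-- The set reported for the query `(i, j)`. -/
def LiteralDS.out (P : LiteralDS m n K s) (y : Position m n K × Bool → Bool) (i j : Fin m) :
    Finset (Fin n) := P.answer i j (P.mem y)

/-- The number of cells read for the query `(i, j)`. -/
def LiteralDS.cost (P : LiteralDS m n K s) (y : Position m n K × Bool → Bool) (i j : Fin m) : ℕ :=
  (P.reads i j (P.mem y)).card

/-- The random data structure (`P ω` with `ω ∈ Ω` uniform) solves SetIntersection with negations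
that are unreliable at the rate `1 / D`: for every family (given with tags) and every query `(i, j)`,
`i ≠ j`, every element of the intersection is reported with probability at least `1 / 2 + 2 δ` if
each negated bit is stuck at `0` with probability `1 / D`; every other element is reported with
probability at most `1 / 2 - δ` if there are no faults; and whatever the set `Z` of the faulty
negated bits is, the expected number of cells read is at most `C * (T + op)`, `op` the size of the
intersection. -/
def Solves {Ω : Type} [Fintype Ω] (P : Ω → LiteralDS m n K s) (D : ℕ) (δ C T : ℝ) : Prop :=
  ∀ x : Position m n K → Bool, OneTag x → ∀ i j, i ≠ j →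
    (∀ e ∈ family x i ∩ family x j,
      1 / 2 + 2 * δ ≤ faultyProbability (fun ω y => e ∈ (P ω).out y i j) D x) ∧
    (∀ e ∉ family x i ∩ family x j,
      probability (fun ω y => e ∈ (P ω).out y i j) x ≤ 1 / 2 - δ) ∧
    ∀ Z : Set (Position m n K), (∑ ω, ((P ω).cost (literals x Z) i j : ℝ)) / Fintype.card Ω ≤
      C * (T + (family x i ∩ family x j).card)

end Pool.Agent.Q226.DSI
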