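import Pool.Agent.Q226.DSI.Defs
import Pool.Agent.Q226.FL2.One
import Pool.Agent.H525R4.Mono.Lower

/-! # SetIntersection with unreliable negations -/

set_option autoImplicit false

open Finset

namespace Pool.Agent.Q226.DSI

open Pool.Agent.Q226.FL2 Pool.Agent.Q226.FLT Pool.Agent.H525R4.Mono

lemma rl1_eq {X : Type} {K : ℕ} (t : X → Fin K) (G : X → Bool) :
    rl1 t G = literals (host t G) {p | p.2 = t p.1} := by
  funext ⟨p, b⟩
  unfold rl1 literals host
  rcases b with _ | _
  · by_cases h : p.2 = t p.1 <;> simp [h]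
  · simp

lemma rl1_mono {X : Type} {K : ℕ} (t : X → Fin K) {G G' : X → Bool} (h : G ≤ G') :
    rl1 t G ≤ rl1 t G' := by
  rintro ⟨p, b⟩
  unfold rl1
  rcases b with _ | _
  · simp
  · simp only [if_true]
    unfold host
    exact Pool.Agent.Q226.FL2.and_le (h p.1) le_rfl

lemma host_one {X : Type} {K : ℕ} (t : X → Fin K) (G : X → Bool) (e : X) (k k' : Fin K)
    (h : host t G (e, k) = true) (h' : host t G (e, k') = true) : k = k' := by
  unfold host at h h'
  simp only [Bool.and_eq_true, decide_eq_true_eq] at h h'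
  rw [h.2, h'.2]

lemma host_ex {X : Type} {K : ℕ} (t : X → Fin K) (G : X → Bool) (e : X) :
    (∃ k, host t G (e, k) = true) ↔ G e = true := by
  unfold host
  constructor
  · rintro ⟨k, hk⟩
    simp only [Bool.and_eq_true] at hk
    exact hk.1
  · intro h
    exact ⟨t e, by simp [h]⟩

variable {m n K s : ℕ}

/-- the bits of a family -/
def bits (F : Fin m → Finset (Fin n)) : Fin m × Fin n → Bool := fun p => decide (p.2 ∈ F p.1)

lemma family_host (t : Fin m × Fin n → Fin K) (F : Fin m → Finset (Fin n)) :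
    family (host t (bits F)) = F := by
  funext i
  ext e
  unfold family
  rw [mem_filter, host_ex]
  unfold bits
  simp

lemma bits_mono {F F' : Fin m → Finset (Fin n)} (h : F ≤ F') : bits F ≤ bits F' := by
  intro p
  unfold bits
  by_cases h1 : p.2 ∈ F p.1
  · simp [h1, h p.1 h1]
  · simp [h1]

/-- the monotone structure with random tags -/
def toMono (P : LiteralDS m n K s) (t : Fin m × Fin n → Fin K) : MonoDS m n s where
  cell c F := P.cell c (rl1 t (bits F))
  cell_mono c _ _ h := P.cell_mono c (rl1_mono t (bits_mono h))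
  reads := P.reads
  answer := P.answer
  answer_mono := P.answer_mono
  answer_reads := P.answer_reads

/-- the trivial structure if there are no sets or no elements -/
def trivialDS (m n : ℕ) : MonoDS m n 0 where
  cell c _ := c.elim0
  cell_mono c := c.elim0
  reads _ _ _ := ∅
  answer _ _ _ := ∅
  answer_mono _ _ _ _ _ := le_rfl
  answer_reads _ _ _ _ _ := rfl

lemma trivial_solves (h : m * n = 0) {δ C T : ℝ} (hC : 1 ≤ C) (hT : 1 ≤ T) :
    Pool.Agent.H525R4.Mono.Solves (fun _ : Unit => (1 : ℝ)) (fun _ => trivialDS m n) δ C T := by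
  refine ⟨fun _ => zero_le_one, by simp, ?_⟩
  intro F i j _
  constructor
  · intro e
    exfalso
    rcases Nat.mul_eq_zero.mp h with h1 | h1
    · subst h1; exact i.elim0
    · subst h1; exact e.elim0
  · have h1 : ((trivialDS m n).cost F i j : ℝ) = 0 := by
      unfold MonoDS.cost
      simp [trivialDS]
    rw [Finset.sum_congr rfl fun ϖ _ => by rw [h1]]
    simp only [mul_zero, sum_const_zero]
    positivity

open Classical in
theorem main {N : ℕ} (hN : 2 ≤ N) {δ C T : ℝ} (hδ : 0 < δ) (hδ2 : δ ≤ 1 / 2) (hC : 1 ≤ C)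
    (hT : 1 ≤ T) {D K : ℕ} (hD : 1 ≤ D) (hK : D * Real.log (2 * N / δ) ≤ K) :
    ∃ m n : ℕ, m * n ≤ N ∧ ∀ (s : ℕ) (Ω : Type) [Fintype Ω] [Nonempty Ω]
      (P : Ω → LiteralDS m n K s), Solves P D δ C T →
        δ ^ 3 * (N : ℝ) ^ 2 ≤ 10 ^ 5 * C ^ 2 * T * s * (Real.logb 2 (N / δ)) ^ 3 := by
  obtain ⟨m, n, hmn, hlow⟩ := lower hN hδ hδ2 hC hT
  refine ⟨m, n, hmn, ?_⟩
  intro s Ω _ _ P hP
  have hNr : (2 : ℝ) ≤ N := by exact_mod_cast hN
  have hDR : (1 : ℝ) ≤ D := by exact_mod_cast hD
  have hmn0 : 0 < m * n := by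
    by_contra hcon
    have h0 : m * n = 0 := by omega
    have := hlow 0 Unit _ _ (trivial_solves h0 hC hT)
    simp only [Nat.cast_zero, mul_zero, zero_mul] at this
    have h1 : 0 < δ ^ 3 * (N : ℝ) ^ 2 := by positivity
    linarith
  have hcard : Fintype.card (Fin m × Fin n) = m * n := by
    rw [Fintype.card_prod, Fintype.card_fin, Fintype.card_fin]
  have hK0 : 0 < K := by
    have h1 : 0 < Real.log (2 * N / δ) := by
      apply Real.log_pos
      rw [lt_div_iff₀ hδ]
      linarith
    have h2 : (0 : ℝ) < K := lt_of_lt_of_le (by positivity) hK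
    exact_mod_cast h2
  have hmnR : (0 : ℝ) < ((m * n : ℕ) : ℝ) := by exact_mod_cast hmn0
  have hK2 : D * Real.log (2 * Fintype.card (Fin m × Fin n) / δ) ≤ K := by
    refine le_trans ?_ hK
    rw [hcard]
    apply mul_le_mul_of_nonneg_left _ (by linarith)
    apply Real.log_le_log (by positivity)
    have h1 : ((m * n : ℕ) : ℝ) ≤ N := by exact_mod_cast hmn
    gcongr
  have : Nonempty (Fin K) := ⟨⟨0, hK0⟩⟩
  set c : ℝ := ((Fintype.card (Ω × (Fin m × Fin n → Fin K)) : ℕ) : ℝ) with hc
  have hc0 : 0 < c := by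
    rw [hc]
    exact_mod_cast Fintype.card_pos
  have hmonoF : ∀ (i j : Fin m) (e : Fin n) (ω : Ω) (u v : Position m n K × Bool → Bool), u ≤ v →
      e ∈ (P ω).out u i j → e ∈ (P ω).out v i j := by
    intro i j e ω u v huv he
    exact (P ω).answer_mono i j (fun c => (P ω).cell_mono c huv) he
  have hout : ∀ (o : Ω × (Fin m × Fin n → Fin K)) (F : Fin m → Finset (Fin n)) (i j : Fin m),
      (toMono (P o.1) o.2).out F i j = (P o.1).out (rl1 o.2 (bits F)) i j := fun _ _ _ _ => rfl
  have hcost : ∀ (o : Ω × (Fin m × Fin n → Fin K)) (F : Fin m → Finset (Fin n)) (i j : Fin m),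
      (toMono (P o.1) o.2).cost F i j = (P o.1).cost (rl1 o.2 (bits F)) i j := fun _ _ _ _ => rfl
  refine hlow s (Ω × (Fin m × Fin n → Fin K)) (fun _ => 1 / c)
    (fun o => toMono (P o.1) o.2) ⟨fun _ => by positivity, ?_, ?_⟩
  · rw [sum_const, card_univ, nsmul_eq_mul]
    show c * (1 / c) = 1
    field_simp
  intro F i j hij
  constructor
  · intro e
    rw [sum_const, nsmul_eq_mul, mul_one_div, le_div_iff₀ hc0]
    by_cases he : e ∈ F i ∩ F j
    · have h1 := one_yes (D := D) hD hK0 hδ (by rw [hcard]; exact hmn0) hK2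
        (fun ω y => e ∈ (P ω).out y i j) (fun ω u v huv => hmonoF i j e ω u v huv) (bits F)
        (A := 1 / 2 + δ) (fun t => by
          have h2 := (hP (host t (bits F)) (fun e k k' => host_one t _ e k k') i j hij).1 e
            (by rw [family_host]; exact he)
          linarith)
      refine h1.trans (le_of_eq ?_)
      congr 2
      ext o
      simp only [mem_filter, mem_univ, true_and, he, iff_true]
      exact Iff.rfl
    · have h1 := one_no hK0 (fun ω y => e ∈ (P ω).out y i j)
        (fun ω u v huv => hmonoF i j e ω u v huv) (bits F)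
        (B := 1 / 2 - δ) (fun t => (hP (host t (bits F)) (fun e k k' => host_one t _ e k k')
          i j hij).2.1 e (by rw [family_host]; exact he))
      have h3 := Finset.card_filter_add_card_filter_not (s := univ)
        (fun o : Ω × (Fin m × Fin n → Fin K) => e ∈ (P o.1).out (rl1 o.2 (bits F)) i j)
      rw [card_univ] at h3
      have h4 : c = ((univ.filter fun o : Ω × (Fin m × Fin n → Fin K) =>
          e ∈ (P o.1).out (rl1 o.2 (bits F)) i j).card : ℝ) +
          ((univ.filter fun o : Ω × (Fin m × Fin n → Fin K) =>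
          ¬ e ∈ (P o.1).out (rl1 o.2 (bits F)) i j).card : ℝ) := by
        rw [hc, ← h3]
        push_cast
        rfl
      have h5 : (1 / 2 + δ) * c ≤ ((univ.filter fun o : Ω × (Fin m × Fin n → Fin K) =>
          ¬ e ∈ (P o.1).out (rl1 o.2 (bits F)) i j).card : ℝ) := by
        have h6 : ((univ.filter fun o : Ω × (Fin m × Fin n → Fin K) =>
          e ∈ (P o.1).out (rl1 o.2 (bits F)) i j).card : ℝ) ≤ (1 / 2 - δ) * c := by
          refine le_trans (le_of_eq ?_) h1
          congr 2
          ext o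
          simp only [mem_filter, mem_univ, true_and]
        linarith
      refine h5.trans (le_of_eq ?_)
      congr 2
      ext o
      simp only [mem_filter, mem_univ, true_and, he, iff_false]
      exact Iff.rfl
  · have h1 : ∀ t : Fin m × Fin n → Fin K,
        (∑ ω, ((P ω).cost (rl1 t (bits F)) i j : ℝ)) ≤
          C * (T + (F i ∩ F j).card) * Fintype.card Ω := by
      intro t
      have h2 := (hP (host t (bits F)) (fun e k k' => host_one t _ e k k') i j hij).2.2
        {p | p.2 = t p.1}
      rw [family_host, ← rl1_eq, div_le_iff₀ (by exact_mod_cast Fintype.card_pos)] at h2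
      exact h2
    have h2 : ∑ o : Ω × (Fin m × Fin n → Fin K), 1 / c * ((toMono (P o.1) o.2).cost F i j : ℝ) =
        1 / c * ∑ t : Fin m × Fin n → Fin K, ∑ ω, ((P ω).cost (rl1 t (bits F)) i j : ℝ) := by
      rw [← mul_sum, Fintype.sum_prod_type, sum_comm]
      rfl
    rw [h2]
    have h3 : ∑ t : Fin m × Fin n → Fin K, ∑ ω, ((P ω).cost (rl1 t (bits F)) i j : ℝ) ≤
        C * (T + (F i ∩ F j).card) * c := by
      refine (sum_le_sum fun t _ => h1 t).trans (le_of_eq ?_)
      rw [sum_const, card_univ, nsmul_eq_mul, hc, Fintype.card_prod]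
      push_cast
      ring
    calc 1 / c * ∑ t : Fin m × Fin n → Fin K, ∑ ω, ((P ω).cost (rl1 t (bits F)) i j : ℝ)
        ≤ 1 / c * (C * (T + (F i ∩ F j).card) * c) :=
          mul_le_mul_of_nonneg_left h3 (by positivity)
      _ = C * (T + (F i ∩ F j).card) := by field_simp

end Pool.Agent.Q226.DSI
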